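import Mathlib

/-!
MP_ba0fa5_ag (supersingular curves of every genus in every characteristic).
Definitions used in the statements of the results: curves by their function fields, genus, points,
supersingularity, positive proportion.
-/

namespace Pool.Agent.Lib.MP_ba0fa5_ag

open scoped Classical
open IntermediateField

section Curve

variable (k K : Type) [Field k] [Field K] [Algebra k K]

/-- The integral closure in `K` of the `k`-algebra generated by the set `s`. -/
noncomputable def intCl (s : Set K) : Subalgebra k K :=
  (integralClosure (Algebra.adjoin k s) K).restrictScalars k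

theorem mem_intCl (s : Set K) (z : K) : z ∈ intCl k K s ↔ IsIntegral (Algebra.adjoin k s) z :=
  Iff.rfl

/-- `dim H¹(C, O_C) = g` for the smooth projective curve `C` over `k` with function field `K`,
computed with the covering of `C` by the two affine open sets `x ≠ ∞` (coordinate ring: the integral
closure of `k[x]` in `K`) and `x ≠ 0` (coordinate ring: the integral closure of `k[1/x]`). -/
def HasGenus (x : K) (g : ℕ) : Prop :=
  Module.rank k (↥(intCl k K {x, x⁻¹}) ⧸
    ((Subalgebra.toSubmodule (intCl k K {x}) ⊔ Subalgebra.toSubmodule (intCl k K {x⁻¹})).comap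
      (intCl k K {x, x⁻¹}).val.toLinearMap)) = g

/-- The number of points with coordinates in `F` of the smooth projective curve with function field
`K`: the points with `x ≠ ∞` and the points with `x = ∞`. -/
noncomputable def numPts (x : K) (F : Type) [Field F] [Algebra k F] : ℕ :=
  Nat.card (intCl k K {x} →ₐ[k] F) +
    Nat.card {φ : intCl k K {x⁻¹} →ₐ[k] F // ∀ h : x⁻¹ ∈ intCl k K {x⁻¹}, φ ⟨x⁻¹, h⟩ = 0}

end Curve

/-- `K` is the function field of a smooth projective geometrically irreducible curve of genus `g` over
the finite field `k` of characteristic `p`, all whose Frobenius eigenvalues are equal to one integer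
`c` with `c ^ 2 = |k|` (so the curve is supersingular). -/
structure SSModel (p g : ℕ) (k K : Type) [Field k] [Fintype k] [Field K] [Algebra k K] (x : K) :
    Prop where
  char : CharP k p
  trans : Transcendental k x
  fin : FiniteDimensional k⟮x⟯ K
  const : ∀ z : K, IsAlgebraic k z → z ∈ (algebraMap k K).range
  genus : HasGenus k K x g
  zeta : ∃ c : ℤ, c ^ 2 = Fintype.card k ∧ ∀ (F : Type) [Field F] [Fintype F] [Algebra k F],
    (numPts k K x F : ℤ) = Fintype.card F + 1 - 2 * g * c ^ (Module.finrank k F)

/-- There is a supersingular curve of genus `g` in characteristic `p`. -/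
def SupersingularGenus (p g : ℕ) : Prop :=
  ∃ (k K : Type) (_ : Field k) (_ : Fintype k) (_ : Field K) (_ : Algebra k K) (x : K),
    SSModel p g k K x

/-- a positive proportion of all `g` satisfies `P` -/
def PosProp (P : ℕ → Prop) : Prop :=
  ∃ c : ℝ, 0 < c ∧ ∃ X₀ : ℕ, ∀ X : ℕ, X₀ ≤ X →
    c * X ≤ (((Finset.Icc 1 X).filter P).card : ℝ)

end Pool.Agent.Lib.MP_ba0fa5_ag
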