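import Pool.Agent.Lib.MP_ba0fa5_ag.Curve

/-!
MP_ba0fa5_ag (supersingular curves of every genus in every characteristic).
Definitions used in the proof: Kummer extensions, number theory.
-/

namespace Pool.Agent.Lib.MP_ba0fa5_ag

open scoped Classical
open IntermediateField

/-! ### Kummer extensions `y ^ m = x ^ a (1 - x) ^ b` -/

open RatFunc in
/-- `K = k(x)(y)`, `x = ι X`, `y ^ m = x ^ a (1 - x) ^ b`, `1, y, …, y ^ (m-1)` a basis over `k(x)`. -/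
structure Kummer (k K : Type) [Field k] [Field K] [Algebra k K] (m a b : ℕ)
    (ι : RatFunc k →ₐ[k] K) (y : K) : Prop where
  eq : y ^ m = ι (RatFunc.X ^ a * (1 - RatFunc.X) ^ b)
  basis : ∀ z : K, ∃! c : Fin m → RatFunc k, z = ∑ i, ι (c i) * y ^ (i : ℕ)

/-! ### Number theory -/

/-- all prime factors of the positive integer `n` are in `S` -/
def InQ (S : Set ℕ) (n : ℕ) : Prop := n ≠ 0 ∧ ∀ l : ℕ, l.Prime → l ∣ n → l ∈ S

/-- `S` is a set of odd primes with Mertens constant `1/4` -/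
def Mert (S : Set ℕ) : Prop :=
  (∀ l ∈ S, l.Prime ∧ l ≠ 2) ∧ ∃ C₀ : ℝ, ∀ y : ℕ, 1 ≤ y →
    |∑ l ∈ (Finset.Icc 1 y).filter (fun l => l ∈ S), Real.log l / l - Real.log y / 4| ≤ C₀

/-- the set of the primes `l ≡ 3 mod 4` such that `p` is not a square modulo `l` -/
def QQ (p : ℕ) : Set ℕ := {l | l.Prime ∧ l % 4 = 3 ∧ ¬ IsSquare ((p : ℕ) : ZMod l)}

/-- members of `<S>` in the interval `(lo, hi]` -/
noncomputable def qset (S : Set ℕ) (lo hi : ℕ) : Finset ℕ :=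
  (Finset.Ioc lo hi).filter (fun n => InQ S n)

/-- the primes of `S` which are larger than `W` -/
def big (S : Set ℕ) (W : ℕ) : Set ℕ := {l | l ∈ S ∧ W < l}

/-- the product of `1 + 2/l` over the prime factors of `n` outside `S` -/
noncomputable def Phi (S : Set ℕ) (n : ℕ) : ℝ :=
  ∏ l ∈ n.primeFactors.filter (fun l => l ∉ S), (1 + 2 / (l : ℝ))

/-- the product of `1 + 52/l` over the prime factors of `n` -/
noncomputable def Psi (n : ℕ) : ℝ := ∏ l ∈ n.primeFactors, (1 + 52 / (l : ℝ))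

/-- squarefree numbers up to `D` composed of the primes in `P` -/
noncomputable def sfs (P : Finset ℕ) (D : ℕ) : Finset ℕ :=
  (Finset.Icc 1 D).filter (fun s => Squarefree s ∧ ∀ l : ℕ, l.Prime → l ∣ s → l ∈ P)

/-- `h = n v u - 1` -/
def hh (n v u : ℕ) : ℕ := n * v * u - 1

/-- lower end of the range of `u` -/
def U1 (K Z : ℕ) : ℕ := Z ^ (12 * K)
/-- upper end of the range of `u` -/
def U2 (K Z : ℕ) : ℕ := Z ^ (12 * K * K)
/-- `X = Z ^ A` -/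
def XX (K Z : ℕ) : ℕ := Z ^ (8 * (3 * K + 12 * K * K))

/-- the quadruples `(n, v, u, x)` -/
noncomputable def TT (S : Set ℕ) (K Z : ℕ) : Finset (ℕ × ℕ × ℕ × ℕ) :=
  (qset S Z (Z ^ K) ×ˢ qset S Z (Z ^ K) ×ˢ qset S (U1 K Z) (U2 K Z) ×ˢ qset S 0 (XX K Z)).filter
    (fun t => t.2.2.2 * hh t.1 t.2.1 t.2.2.1 ≤ XX K Z)

/-- the quadruples `(n, v, u, x)` with `x, u, v` pairwise coprime -/
noncomputable def TT' (S : Set ℕ) (K Z : ℕ) : Finset (ℕ × ℕ × ℕ × ℕ) :=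
  (TT S K Z).filter (fun t => t.2.2.2.Coprime t.2.2.1 ∧ t.2.2.2.Coprime t.2.1 ∧
    t.2.2.1.Coprime t.2.1)

/-- `x h - b = x' h' - b'`, written without subtraction -/
def Coinc (t t' : ℕ × ℕ × ℕ × ℕ) : Prop :=
  t.2.2.2 * hh t.1 t.2.1 t.2.2.1 + (t'.2.2.1 + t'.2.1)
    = t'.2.2.2 * hh t'.1 t'.2.1 t'.2.2.1 + (t.2.2.1 + t.2.1)

/-- `E = n'v' - nv + nvn'v'(v - v')` -/
def EE (n v n' v' : ℕ) : ℤ := (n' * v' : ℤ) - n * v + n * v * n' * v' * (v - v')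

/-- `2g - 2 = m - d₁ - d₂ - d₃` -/
def RepQ (S : Set ℕ) (g : ℕ) : Prop :=
  ∃ m d₁ d₂ d₃ : ℕ, InQ S m ∧ d₁.Coprime d₂ ∧ d₁.Coprime d₃ ∧ d₂.Coprime d₃ ∧
    d₁ * d₂ * d₃ ∣ m ∧ 2 * g + d₁ + d₂ + d₃ = m + 2

end Pool.Agent.Lib.MP_ba0fa5_ag
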