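import Pool.Agent.Lib.MP_ba0fa5_ag.Defs

/-!
MP_ba0fa5_ag: statements of all modules (see Paper.md for the proofs).
Part I: geometry (names G...), Part II: number theory (names N...).
-/

namespace Pool.Agent.Lib.MP_ba0fa5_ag

open scoped Classical
open IntermediateField

/-! ## Part I : geometry -/

/-- GCRT. exponents with prescribed gcds (Chinese remainder theorem; `m` odd). -/
def GcrtStmt : Prop := ∀ m d₁ d₂ d₃ : ℕ, Odd m → d₁.Coprime d₂ → d₁.Coprime d₃ → d₂.Coprime d₃ →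
  d₁ * d₂ * d₃ ∣ m → ∃ a b : ℕ, a.gcd m = d₁ ∧ b.gcd m = d₂ ∧ (a + b).gcd m = d₃

/-- GCOUNT. -/
def GcountStmt : Prop := ∀ m a b : ℕ, Odd m → (a.gcd b).gcd m = 1 →
  2 * ((Finset.range m).filter (fun j => m < (j * a) % m + (j * b) % m)).card
    + a.gcd m + b.gcd m + (a + b).gcd m = m + 2

/-- GEXIST. existence of the Kummer extension. -/
def GexistStmt : Prop := ∀ (k : Type) [Field k] (m a b : ℕ), Odd m → (a.gcd b).gcd m = 1 →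
  ∃ (K : Type) (_ : Field K) (_ : Algebra k K) (ι : RatFunc k →ₐ[k] K) (y : K), Kummer k K m a b ι y

/-- GFIN. `x = ι X` is transcendental and `K` is finite over `k(x)`. -/
def GfinStmt : Prop := ∀ (k K : Type) [Field k] [Field K] [Algebra k K] (m a b : ℕ)
  (ι : RatFunc k →ₐ[k] K) (y : K), Kummer k K m a b ι y →
  Transcendental k (ι RatFunc.X) ∧ FiniteDimensional k⟮ι RatFunc.X⟯ K

/-- GINT. integral elements are the sums of integral elements `f_i y^i`. -/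
def GintStmt : Prop := ∀ (k K : Type) [Field k] [Field K] [Algebra k K] (m a b : ℕ)
  (ι : RatFunc k →ₐ[k] K) (y : K), Kummer k K m a b ι y → 0 < m → (∃ ζ : k, IsPrimitiveRoot ζ m) →
  ∀ s : Set (RatFunc k), (s = {RatFunc.X} ∨ s = {RatFunc.X⁻¹} ∨ s = {RatFunc.X, RatFunc.X⁻¹}) →
  ∀ c : Fin m → RatFunc k, (∑ i, ι (c i) * y ^ (i : ℕ)) ∈ intCl k K (ι '' s) ↔
    ∀ i, c i ^ m * (RatFunc.X ^ a * (1 - RatFunc.X) ^ b) ^ (i : ℕ) ∈ Algebra.adjoin k s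

/-- GCONST. `k` is algebraically closed in `K`. -/
def GconstStmt : Prop := ∀ (k K : Type) [Field k] [Field K] [Algebra k K] (m a b : ℕ)
  (ι : RatFunc k →ₐ[k] K) (y : K), Kummer k K m a b ι y → 0 < m → (∃ ζ : k, IsPrimitiveRoot ζ m) →
  (a.gcd b).gcd m = 1 → ∀ z : K, IsAlgebraic k z → z ∈ (algebraMap k K).range

/-- GGENUS. -/
def GgenusStmt : Prop := ∀ (k K : Type) [Field k] [Field K] [Algebra k K] (m a b : ℕ)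
  (ι : RatFunc k →ₐ[k] K) (y : K), Kummer k K m a b ι y → 0 < m → (∃ ζ : k, IsPrimitiveRoot ζ m) →
  HasGenus k K (ι RatFunc.X)
    ((Finset.range m).filter (fun j => m < (j * a) % m + (j * b) % m)).card

/-- GAFF. points over `x = c`, `c ≠ 0, 1`. -/
def GaffStmt : Prop := ∀ (k K : Type) [Field k] [Field K] [Algebra k K] (m a b : ℕ)
  (ι : RatFunc k →ₐ[k] K) (y : K), Kummer k K m a b ι y → 0 < m → (∃ ζ : k, IsPrimitiveRoot ζ m) →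
  ∀ (F : Type) [Field F] [Fintype F] [Algebra k F] (c : F), c ≠ 0 → c ≠ 1 →
  Finite {φ : intCl k K {ι RatFunc.X} →ₐ[k] F //
      ∀ h : ι RatFunc.X ∈ intCl k K {ι RatFunc.X}, φ ⟨ι RatFunc.X, h⟩ = c} ∧
  Nat.card {φ : intCl k K {ι RatFunc.X} →ₐ[k] F //
      ∀ h : ι RatFunc.X ∈ intCl k K {ι RatFunc.X}, φ ⟨ι RatFunc.X, h⟩ = c}
    = (Finset.univ.filter (fun d : F => d ^ m = c ^ a * (1 - c) ^ b)).card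

/-- GZERO. points over `x = 0`. -/
def GzeroStmt : Prop := ∀ (k K : Type) [Field k] [Field K] [Algebra k K] (m a b : ℕ)
  (ι : RatFunc k →ₐ[k] K) (y : K), Kummer k K m a b ι y → 0 < m → (∃ ζ : k, IsPrimitiveRoot ζ m) →
  ∀ (F : Type) [Field F] [Fintype F] [Algebra k F],
  Nat.card {φ : intCl k K {ι RatFunc.X} →ₐ[k] F //
      ∀ h : ι RatFunc.X ∈ intCl k K {ι RatFunc.X}, φ ⟨ι RatFunc.X, h⟩ = 0} = a.gcd m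

/-- GONE. points over `x = 1` (use GZERO for the coordinate `1 - x`). -/
def GoneStmt : Prop := ∀ (k K : Type) [Field k] [Field K] [Algebra k K] (m a b : ℕ)
  (ι : RatFunc k →ₐ[k] K) (y : K), Kummer k K m a b ι y → 0 < m → (∃ ζ : k, IsPrimitiveRoot ζ m) →
  ∀ (F : Type) [Field F] [Fintype F] [Algebra k F],
  Nat.card {φ : intCl k K {ι RatFunc.X} →ₐ[k] F //
      ∀ h : ι RatFunc.X ∈ intCl k K {ι RatFunc.X}, φ ⟨ι RatFunc.X, h⟩ = 1} = b.gcd m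

/-- GINF. points over `x = ∞` (use GZERO for the coordinate `1 / x`; `m` odd). -/
def GinfStmt : Prop := ∀ (k K : Type) [Field k] [Field K] [Algebra k K] (m a b : ℕ)
  (ι : RatFunc k →ₐ[k] K) (y : K), Kummer k K m a b ι y → Odd m → (∃ ζ : k, IsPrimitiveRoot ζ m) →
  ∀ (F : Type) [Field F] [Fintype F] [Algebra k F],
  Nat.card {φ : intCl k K {(ι RatFunc.X)⁻¹} →ₐ[k] F //
      ∀ h : (ι RatFunc.X)⁻¹ ∈ intCl k K {(ι RatFunc.X)⁻¹}, φ ⟨(ι RatFunc.X)⁻¹, h⟩ = 0}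
    = (a + b).gcd m

/-- GPTS. all points (from GAFF, GZERO, GONE, GINF). -/
def GptsStmt : Prop := ∀ (k K : Type) [Field k] [Field K] [Algebra k K] (m a b : ℕ)
  (ι : RatFunc k →ₐ[k] K) (y : K), Kummer k K m a b ι y → Odd m → (∃ ζ : k, IsPrimitiveRoot ζ m) →
  ∀ (F : Type) [Field F] [Fintype F] [Algebra k F],
  numPts k K (ι RatFunc.X) F =
    (∑ c ∈ (Finset.univ : Finset F).filter (fun c => c ≠ 0 ∧ c ≠ 1),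
      (Finset.univ.filter (fun d : F => d ^ m = c ^ a * (1 - c) ^ b)).card)
      + a.gcd m + b.gcd m + (a + b).gcd m

/-- GSODD. Gauss sums of characters of odd order dividing `Q + 1` over the field with `Q²` elements. -/
def GsoddStmt : Prop := ∀ (E F : Type) [Field E] [Fintype E] [Field F] [Fintype F] [Algebra E F]
  (m : ℕ) (χ : MulChar F ℂ) (ψ : AddChar E ℂ), Module.finrank E F = 2 → Odd m →
  m ∣ Fintype.card E + 1 → χ ^ m = 1 → χ ≠ 1 → ψ ≠ 1 →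
  gaussSum χ (ψ.compAddMonoidHom (Algebra.trace E F).toAddMonoidHom) = Fintype.card E

/-- GSDBL. Davenport-Hasse for a quadratic extension. -/
def GsdblStmt : Prop := ∀ (E F : Type) [Field E] [Fintype E] [Field F] [Fintype F] [Algebra E F]
  (χ : MulChar E ℂ) (χ' : MulChar F ℂ) (ψ : AddChar E ℂ), Module.finrank E F = 2 → χ ≠ 1 → ψ ≠ 1 →
  (∀ z : F, χ' z = χ (Algebra.norm E z)) →
  gaussSum χ' (ψ.compAddMonoidHom (Algebra.trace E F).toAddMonoidHom) = - (gaussSum χ ψ) ^ 2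

/-- GSALL. `g(χ) = -(-q)^n` over the field with `q^(2n)` elements. -/
def GsallStmt : Prop := ∀ (p i m n : ℕ) (F : Type) [Field F] [Fintype F] [Fact p.Prime]
  [Algebra (ZMod p) F] (χ : MulChar F ℂ) (ψ : AddChar (ZMod p) ℂ), 0 < i → 0 < n → Odd m →
  m ∣ p ^ i + 1 → Fintype.card F = p ^ (2 * i * n) → χ ^ m = 1 → χ ≠ 1 → ψ ≠ 1 →
  gaussSum χ (ψ.compAddMonoidHom (Algebra.trace (ZMod p) F).toAddMonoidHom) = -(-(p : ℂ) ^ i) ^ n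

/-- GJAC. the affine points, from GSALL. -/
def GjacStmt : Prop := ∀ (p i m n a b : ℕ) (F : Type) [Field F] [Fintype F] [Fact p.Prime]
  [CharP F p], 0 < i → 0 < n → Odd m → m ∣ p ^ i + 1 → (a.gcd b).gcd m = 1 →
  Fintype.card F = p ^ (2 * i * n) →
  ((∑ c ∈ (Finset.univ : Finset F).filter (fun c => c ≠ 0 ∧ c ≠ 1),
      (Finset.univ.filter (fun d : F => d ^ m = c ^ a * (1 - c) ^ b)).card : ℕ) : ℤ)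
    = Fintype.card F + 1 - a.gcd m - b.gcd m - (a + b).gcd m
      - (m + 2 - a.gcd m - b.gcd m - (a + b).gcd m) * (-(p : ℤ) ^ i) ^ n

/-- GFINAL. (uses GCRT, GCOUNT, GEXIST, GFIN, GCONST, GGENUS, GPTS, GJAC) -/
def GfinalStmt : Prop := ∀ p i m d₁ d₂ d₃ g : ℕ, p.Prime → 0 < i → Odd m → m ∣ p ^ i + 1 →
  d₁.Coprime d₂ → d₁.Coprime d₃ → d₂.Coprime d₃ → d₁ * d₂ * d₃ ∣ m →
  2 * g + d₁ + d₂ + d₃ = m + 2 → SupersingularGenus p g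

/-! ## Part II : number theory -/

/-- NLINK. -/
def NlinkStmt : Prop := ∀ p m : ℕ, p.Prime → InQ (QQ p) m → Odd m ∧ ∃ i : ℕ, 0 < i ∧ m ∣ p ^ i + 1

/-- NMERTP. Mertens for `QQ p`. -/
def NmertpStmt : Prop := ∀ p : ℕ, p.Prime → Mert (QQ p)

/-- NMERT1. Mertens for all primes. -/
def Nmert1Stmt : Prop := ∃ C : ℝ, ∀ y : ℕ, 1 ≤ y →
  |∑ l ∈ (Finset.Icc 1 y).filter Nat.Prime, Real.log l / l - Real.log y| ≤ C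

/-- NREC. sums of reciprocals (partial summation, from `Mert` and NMERT1). -/
def NrecStmt : Prop := ∀ S : Set ℕ, Mert S → ∃ C : ℝ, ∀ y : ℕ, 3 ≤ y →
  |∑ l ∈ (Finset.Icc 1 y).filter (fun l => l ∈ S), (1 : ℝ) / l - Real.log (Real.log y) / 4| ≤ C ∧
  |∑ l ∈ (Finset.Icc 1 y).filter (fun l => l.Prime ∧ l ∉ S), (1 : ℝ) / l
      - 3 * Real.log (Real.log y) / 4| ≤ C

/-- NCNT. number of primes of `S`. -/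
def NcntStmt : Prop := ∀ S : Set ℕ, Mert S → ∃ c : ℝ, 0 < c ∧ ∃ y₀ : ℕ, ∀ y : ℕ, y₀ ≤ y →
  c * y / Real.log y ≤ (((Finset.Icc 1 y).filter (fun l => l ∈ S)).card : ℝ)

/-- NUP. -/
def NupStmt : Prop := ∀ S : Set ℕ, Mert S → ∃ C : ℝ, ∀ W y : ℕ, 3 ≤ W → W ≤ y →
  ∑ n ∈ qset (big S W) 0 y, (1 : ℝ) / n ≤ C * (Real.log y / Real.log W) ^ (1 / 4 : ℝ) ∧
  ∑ n ∈ qset S 0 y, (1 : ℝ) / n ≤ C * (Real.log y) ^ (1 / 4 : ℝ)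

/-- the lower bound of II.2 holds with the exponent `K` -/
def KGood (S : Set ℕ) (K : ℕ) : Prop := 3 ≤ K ∧ ∃ c : ℝ, 0 < c ∧ ∀ W : ℕ, 3 ≤ W →
  ∃ y₀ : ℕ, ∀ y : ℕ, y₀ ≤ y →
    c * (Real.log y / Real.log W) ^ (1 / 4 : ℝ) ≤ ∑ n ∈ qset (big S W) y (y ^ K), (1 : ℝ) / n

/-- NLOW. -/
def NlowStmt : Prop := ∀ S : Set ℕ, Mert S → ∃ K : ℕ, KGood S K

/-- NGOOD. -/
def NgoodStmt : Prop := ∀ (S : Set ℕ) (K : ℕ), Mert S → KGood S K →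
  ∃ c : ℝ, 0 < c ∧ ∃ Z₀ : ℕ, ∀ Z : ℕ, Z₀ ≤ Z → c * Real.log Z ≤
    ∑ t ∈ (qset S Z (Z ^ K) ×ˢ qset S Z (Z ^ K) ×ˢ qset S (U1 K Z) (U2 K Z) ×ˢ
        qset S Z (Z ^ K)).filter (fun t => t.2.2.2.Coprime t.2.2.1 ∧ t.2.2.2.Coprime t.2.1 ∧
          t.2.2.1.Coprime t.2.1),
      (1 : ℝ) / (t.1 * t.2.1 * t.2.2.1 * t.2.2.2)

/-- NFM. first moment. -/
def NfmStmt : Prop := ∀ (S : Set ℕ) (K : ℕ), Mert S → KGood S K →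
  ∃ c : ℝ, 0 < c ∧ ∃ Z₀ : ℕ, ∀ Z : ℕ, Z₀ ≤ Z → c * XX K Z ≤ ((TT' S K Z).card : ℝ)

/-- NSIEVE. Selberg's upper bound sieve, at most two classes for every prime. -/
def NsieveStmt : Prop := ∀ (P : Finset ℕ) (Ω : ℕ → Finset ℕ) (M D : ℕ), 1 ≤ D →
  (∀ l ∈ P, l.Prime ∧ (∀ r ∈ Ω l, r < l) ∧ (Ω l).card ≤ 2 ∧ 1 ≤ (Ω l).card ∧ (Ω l).card < l) →
  (((Finset.range M).filter (fun w => ∀ l ∈ P, w % l ∉ Ω l)).card : ℝ) ≤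
    M / (∑ s ∈ sfs P D, ∏ l ∈ s.primeFactors, ((Ω l).card : ℝ) / l) + (D : ℝ) ^ 4

/-- NRANKIN. -/
def NrankinStmt : Prop := ∃ B D₀ : ℕ, 2 ≤ B ∧ ∀ D : ℕ, D₀ ≤ D → ∀ (P : Finset ℕ) (w : ℕ → ℝ),
  (∀ l ∈ P, l.Prime ∧ l ^ B ≤ D ∧ 0 ≤ w l ∧ w l ≤ 2) →
  (1 / 2) * ∏ l ∈ P, (1 + w l / l) ≤ ∑ s ∈ sfs P D, ∏ l ∈ s.primeFactors, w l / l

/-- NSINGLE. -/
def NsingleStmt : Prop := ∀ S : Set ℕ, Mert S → ∃ C : ℝ, ∃ y₀ : ℕ, ∀ y : ℕ, y₀ ≤ y → ∀ t a : ℕ,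
  1 ≤ t → t ^ 2 ≤ y → a.Coprime t →
  (((qset S 0 y).filter (fun n => n ≡ a [MOD t])).card : ℝ) ≤
    C * y / (t.totient * (Real.log y) ^ (3 / 4 : ℝ))

/-- NAPSUM. -/
def NapsumStmt : Prop := ∀ (S : Set ℕ) (K : ℕ), Mert S → 1 ≤ K → ∃ C : ℝ, ∃ y₀ : ℕ, ∀ y : ℕ,
  y₀ ≤ y → ∀ t a : ℕ, 1 ≤ t → t ^ 2 ≤ y → a.Coprime t →
  ∑ n ∈ (qset S y (y ^ K)).filter (fun n => n ≡ a [MOD t]), (1 : ℝ) / n ≤
    C * (Real.log y) ^ (1 / 4 : ℝ) / t.totient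

/-- NAPTRIV. -/
def NaptrivStmt : Prop := ∀ K : ℕ, 1 ≤ K → ∃ C : ℝ, ∀ y t a : ℕ, 2 ≤ y → 1 ≤ t →
  ∑ n ∈ (Finset.Ioc y (y ^ K)).filter (fun n => n ≡ a [MOD t]), (1 : ℝ) / n ≤
    1 / y + C * Real.log y / t

/-- NCOUNTP. number of solutions of `x h - x' h' = Δ`. -/
def NcountpStmt : Prop := ∀ (h h' X : ℕ) (Δ : ℤ), 1 ≤ h → 1 ≤ h' →
  (((Finset.Icc 1 X ×ˢ Finset.Icc 1 X).filter (fun t : ℕ × ℕ =>
      (t.1 * h : ℤ) - t.2 * h' = Δ ∧ t.1 * h ≤ X)).card : ℝ) ≤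
    (X : ℝ) * (h.gcd h') / (h * h') + 1

/-- NPAIR. sieve for pairs. -/
def NpairStmt : Prop := ∀ (S : Set ℕ) (K : ℕ), Mert S → 3 ≤ K → ∃ C : ℝ, ∃ Z₀ : ℕ, ∀ Z : ℕ,
  Z₀ ≤ Z → ∀ (h h' : ℕ) (Δ : ℤ), 1 ≤ h → 1 ≤ h' → h ≤ Z ^ (3 * K + 12 * K * K) →
  h' ≤ Z ^ (3 * K + 12 * K * K) → Δ ≠ 0 → |Δ| ≤ (XX K Z : ℤ) →
  (((qset S 0 (XX K Z) ×ˢ qset S 0 (XX K Z)).filter (fun t : ℕ × ℕ =>
      (t.1 * h : ℤ) - t.2 * h' = Δ ∧ t.1 * h ≤ XX K Z)).card : ℝ) ≤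
    C * ((XX K Z : ℝ) * (h.gcd h') / (h * h')) * (Real.log Z) ^ (-(3 / 2) : ℝ)
      * (Phi S h * Phi S h' * Phi S Δ.natAbs)

/-- NALG. the algebra of `E`. -/
def NalgStmt : Prop :=
  (∀ n v n' v' : ℕ, 1 ≤ n → 1 ≤ v → 1 ≤ n' → 1 ≤ v' → EE n v n' v' = 0 → n = n' ∧ v = v') ∧
  (∀ n v u n' v' u' : ℕ, ∀ t : ℕ, 1 ≤ n → 1 ≤ v → 1 ≤ u → 1 ≤ n' → 1 ≤ v' → 1 ≤ u' →
    t ∣ hh n v u → t ∣ hh n' v' u' →
    t.Coprime (n * v * (n' * v')) ∧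
    ((t : ℤ) ∣ ((u : ℤ) + v - u' - v') → (t : ℤ) ∣ EE n v n' v')) ∧
  (∀ n v n' v' Y : ℕ, n ≤ Y → v ≤ Y → n' ≤ Y → v' ≤ Y → |EE n v n' v'| ≤ 2 * (Y : ℤ) ^ 5)

/-- NDIAG. -/
def NdiagStmt : Prop := ∀ (S : Set ℕ) (K : ℕ), Mert S → 3 ≤ K → ∃ C : ℝ, ∃ Z₀ : ℕ, ∀ Z : ℕ,
  Z₀ ≤ Z → ((TT S K Z).card : ℝ) ≤ C * XX K Z

/-- NE. the pairs with `(n, v) = (n', v')`, `u ≠ u'`. -/
def NeStmt : Prop := ∀ (S : Set ℕ) (K : ℕ), Mert S → 3 ≤ K → ∃ Z₀ : ℕ, ∀ Z : ℕ, Z₀ ≤ Z →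
  (((TT S K Z ×ˢ TT S K Z).filter (fun q => q.1.1 = q.2.1 ∧ q.1.2.1 = q.2.2.1 ∧
      q.1.2.2.1 ≠ q.2.2.2.1 ∧ Coinc q.1 q.2)).card : ℝ) ≤ XX K Z

/-- NF. the pairs with `(n, v) ≠ (n', v')`, `u + v = u' + v'`. -/
def NfStmt : Prop := ∀ (S : Set ℕ) (K : ℕ), Mert S → 3 ≤ K → ∃ Z₀ : ℕ, ∀ Z : ℕ, Z₀ ≤ Z →
  (((TT S K Z ×ˢ TT S K Z).filter (fun q => ¬ (q.1.1 = q.2.1 ∧ q.1.2.1 = q.2.2.1) ∧
      q.1.2.2.1 + q.1.2.1 = q.2.2.2.1 + q.2.2.1 ∧ Coinc q.1 q.2)).card : ℝ) ≤ XX K Z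

/-- NPHI. the PHI LEMMA. -/
def NphiStmt : Prop := ∀ (S : Set ℕ) (K : ℕ), Mert S → 3 ≤ K → ∃ C : ℝ, ∃ Z₀ : ℕ, ∀ Z : ℕ,
  Z₀ ≤ Z → ∀ t a₀ α : ℕ, ∀ β : ℤ, 1 ≤ t → t ≤ 2 * Z ^ (5 * K) → a₀.Coprime t → 1 ≤ α →
  α ≤ XX K Z → |β| ≤ (XX K Z : ℤ) → Int.gcd α β = 1 →
  ∑ u ∈ (qset S (U1 K Z) (U2 K Z)).filter (fun u => u ≡ a₀ [MOD t] ∧ (α * u : ℤ) + β ≠ 0),
      Phi S ((α * u : ℤ) + β).natAbs ^ 3 / u ≤
    C * (Real.log Z) ^ (1 / 4 : ℝ) * Psi t / t.totient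

/-- NTSUM. -/
def NtsumStmt : Prop := ∀ (S : Set ℕ) (K : ℕ), Mert S → 3 ≤ K → ∃ C : ℝ, ∃ Z₀ : ℕ, ∀ Z : ℕ,
  Z₀ ≤ Z →
  ∑ q ∈ (qset S Z (Z ^ K) ×ˢ qset S Z (Z ^ K) ×ˢ qset S Z (Z ^ K) ×ˢ qset S Z (Z ^ K)).filter
      (fun q => ¬ (q.1 = q.2.2.1 ∧ q.2.1 = q.2.2.2)),
    (1 / ((q.1 : ℝ) * q.2.1 * q.2.2.1 * q.2.2.2)) *
      ∑ t ∈ (EE q.1 q.2.1 q.2.2.1 q.2.2.2).natAbs.divisors.filter
          (fun t => t.Coprime (q.1 * q.2.1 * (q.2.2.1 * q.2.2.2))), Psi t / t.totient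
    ≤ C * Real.log Z

/-- NMM. the pairs with `(n, v) ≠ (n', v')`, `u + v ≠ u' + v'` (from NPAIR, NALG, NPHI, NAPSUM,
NTSUM). -/
def NmmStmt : Prop := ∀ (S : Set ℕ) (K : ℕ), Mert S → 3 ≤ K → ∃ C : ℝ, ∃ Z₀ : ℕ, ∀ Z : ℕ,
  Z₀ ≤ Z →
  (((TT S K Z ×ˢ TT S K Z).filter (fun q => ¬ (q.1.1 = q.2.1 ∧ q.1.2.1 = q.2.2.1) ∧
      q.1.2.2.1 + q.1.2.1 ≠ q.2.2.2.1 + q.2.2.1 ∧ Coinc q.1 q.2)).card : ℝ) ≤ C * XX K Z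

/-- NSM. second moment (from NDIAG, NE, NF, NMM). -/
def NsmStmt : Prop := ∀ (S : Set ℕ) (K : ℕ), Mert S → 3 ≤ K → ∃ C : ℝ, ∃ Z₀ : ℕ, ∀ Z : ℕ,
  Z₀ ≤ Z → (((TT S K Z ×ˢ TT S K Z).filter (fun q => Coinc q.1 q.2)).card : ℝ) ≤ C * XX K Z

/-- NFINAL. (from NLOW, NFM, NSM) -/
def NfinalStmt : Prop := ∀ S : Set ℕ, Mert S → PosProp (RepQ S)

/-- FINAL. -/
def FinalStmt : Prop := ∀ p : ℕ, p.Prime → PosProp (SupersingularGenus p)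

end Pool.Agent.Lib.MP_ba0fa5_ag
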